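import Pool.Agent.Helper9.STP.Graphs

/-!
# The double star trees
-/

namespace Pool.Agent.Helper20.SpTreeG1a

open Pool.Agent.Helper9.SpTree
open scoped Classical

/-- a connected graph all of whose edges join a vertex other than the root to its parent is a
tree -/
lemma isTree_of_parent {V : Type} [Finite V] (G : SimpleGraph V) (root : V) (par : V → V)
    (hconn : G.Connected)
    (hpar : ∀ x y, G.Adj x y → (x ≠ root ∧ y = par x) ∨ (y ≠ root ∧ x = par y)) :
    G.IsTree := by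
  rw [SimpleGraph.isTree_iff_connected_and_card]
  refine ⟨hconn, le_antisymm ?_ hconn.card_vert_le_card_edgeSet_add_one⟩
  have hsub : G.edgeSet ⊆ (fun x => s(x, par x)) '' {x : V | x ≠ root} := by
    intro e
    induction e using Sym2.ind with
    | _ a b =>
      intro he
      rcases hpar a b he with ⟨h1, h2⟩ | ⟨h1, h2⟩
      · exact ⟨a, h1, by rw [h2]⟩
      · exact ⟨b, h1, by rw [h2]; exact Sym2.eq_swap⟩
  have h1 : G.edgeSet.ncard ≤ ({x : V | x ≠ root}).ncard :=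
    (Set.ncard_le_ncard hsub (Set.toFinite _)).trans (Set.ncard_image_le (Set.toFinite _))
  have h2 : ({x : V | x ≠ root}).ncard + 1 = Nat.card V := by
    have h3 : {x : V | x ≠ root} = (Set.univ : Set V) \ {root} := by
      ext x; simp
    rw [h3, Set.ncard_sdiff_singleton_add_one (Set.mem_univ _) (Set.toFinite _), Set.ncard_univ]
  rw [Nat.card_coe_set_eq]
  omega

variable {W X2 X1 : Type}

lemma adj_of_rel {v : W} {c : X2} {Y2 : X2 → Bool} {Y1 : X1 → Bool} {p : X1}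
    {x y : W ⊕ X2 ⊕ X1} (h : DSRel v c Y2 Y1 p x y) : (DS v c Y2 Y1 p).Adj x y := by
  refine (SimpleGraph.fromRel_adj _ _ _).2 ⟨?_, Or.inl h⟩
  cases h with
  | cY2 x hx h => simpa using fun h' => hx h'.symm
  | vY2 x h => simp
  | cY1 x h => simp
  | cp => simp
  | vY1 x h => simp
  | cw w h => simp

theorem DS_connected (v : W) (c : X2) (Y2 : X2 → Bool)
    (Y1 : X1 → Bool) (p : X1) (hp : Y1 p = false) :
    (DS v c Y2 Y1 p).Connected := by
  rw [SimpleGraph.connected_iff_exists_forall_reachable]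
  have hcp : (DS v c Y2 Y1 p).Reachable (.inr (.inl c)) (.inr (.inr p)) :=
    (adj_of_rel DSRel.cp).reachable
  have hvp : (DS v c Y2 Y1 p).Reachable (.inl v) (.inr (.inr p)) :=
    (adj_of_rel (DSRel.vY1 p hp)).reachable
  have hcv : (DS v c Y2 Y1 p).Reachable (.inr (.inl c)) (.inl v) := hcp.trans hvp.symm
  refine ⟨.inr (.inl c), ?_⟩
  rintro (w | x | x)
  · by_cases hw : w = v
    · subst hw; exact hcv
    · exact (adj_of_rel (DSRel.cw w hw)).reachable
  · by_cases hx : x = c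
    · subst hx; exact SimpleGraph.Reachable.refl _
    · cases hy : Y2 x with
      | false => exact hcv.trans (adj_of_rel (DSRel.vY2 x hy)).reachable
      | true => exact (adj_of_rel (DSRel.cY2 x hx hy)).reachable
  · cases hy : Y1 x with
    | false => exact hcv.trans (adj_of_rel (DSRel.vY1 x hy)).reachable
    | true => exact (adj_of_rel (DSRel.cY1 x hy)).reachable

/-- the parent of a vertex of the double star rooted at `c` -/
noncomputable def dsPar (v : W) (c : X2) (Y2 : X2 → Bool) (Y1 : X1 → Bool) (p : X1) :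
    W ⊕ X2 ⊕ X1 → W ⊕ X2 ⊕ X1
  | .inl w => if w = v then .inr (.inr p) else .inr (.inl c)
  | .inr (.inl x) => if Y2 x = true then .inr (.inl c) else .inl v
  | .inr (.inr x) => if x = p then .inr (.inl c) else
      if Y1 x = true then .inr (.inl c) else .inl v

theorem DS_isTree [Finite W] [Finite X2] [Finite X1] (v : W) (c : X2) (Y2 : X2 → Bool)
    (Y1 : X1 → Bool) (p : X1) (hc : Y2 c = true) (hp : Y1 p = false) :
    (DS v c Y2 Y1 p).IsTree := by
  refine isTree_of_parent _ (.inr (.inl c)) (dsPar v c Y2 Y1 p) (DS_connected v c Y2 Y1 p hp) ?_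
  have key : ∀ x y, DSRel v c Y2 Y1 p x y →
      (x ≠ .inr (.inl c) ∧ y = dsPar v c Y2 Y1 p x) ∨
        (y ≠ .inr (.inl c) ∧ x = dsPar v c Y2 Y1 p y) := by
    intro x y h
    cases h with
    | cY2 x hx h => exact Or.inr ⟨by simpa using hx, by simp [dsPar, h]⟩
    | vY2 x h =>
      refine Or.inr ⟨?_, by simp [dsPar, h]⟩
      intro h'
      simp only [Sum.inr.injEq, Sum.inl.injEq] at h'
      subst h'
      rw [hc] at h
      exact Bool.noConfusion h
    | cY1 x h => exact Or.inr ⟨by simp, by simp [dsPar, h]⟩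
    | cp => exact Or.inr ⟨by simp, by simp [dsPar]⟩
    | vY1 x h =>
      by_cases hx : x = p
      · subst hx
        exact Or.inl ⟨by simp, by simp [dsPar]⟩
      · exact Or.inr ⟨by simp, by simp [dsPar, h, hx]⟩
    | cw w h => exact Or.inr ⟨by simp, by simp [dsPar, h]⟩
  intro x y h
  rcases ((SimpleGraph.fromRel_adj _ _ _).1 h).2 with h1 | h1
  · exact key x y h1
  · exact (key y x h1).symm

theorem DS_hard (v : W) (c : X2) (Y2 A2 : X2 → Bool) (Y1 A1 : X1 → Bool) (p : X1)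
    (hc : A2 c = true) (h2 : A2 ≤ Y2) (h1 : A1 ≤ Y1) (hp : Y1 p = false) :
    ¬ ((DS v c Y2 Y1 p).induce (US v A2 A1)).Connected := by
  intro hcon
  have hv : (Sum.inl v : W ⊕ X2 ⊕ X1) ∈ US v A2 A1 := Or.inl rfl
  have hcm : (Sum.inr (Sum.inl c) : W ⊕ X2 ⊕ X1) ∈ US v A2 A1 := Or.inr (Or.inl ⟨c, hc, rfl⟩)
  obtain ⟨w⟩ := hcon.preconnected ⟨_, hv⟩ ⟨_, hcm⟩
  cases w with
  | cons h q =>
    rename_i y
    obtain ⟨y, hy⟩ := y
    have h' : (DS v c Y2 Y1 p).Adj (.inl v) y := h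
    rcases hy with rfl | ⟨z, hz, rfl⟩ | ⟨z, hz, rfl⟩
    · exact h'.ne rfl
    · have hz2 : Y2 z = true := by
        have := h2 z
        rw [hz] at this
        exact Bool.eq_true_of_true_le this
      rcases ((SimpleGraph.fromRel_adj _ _ _).1 h').2 with h3 | h3
      · cases h3 with
        | vY2 x h => rw [hz2] at h; exact Bool.noConfusion h
      · cases h3 with
        | cw w h => exact h rfl
    · have hz2 : Y1 z = true := by
        have := h1 z
        rw [hz] at this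
        exact Bool.eq_true_of_true_le this
      rcases ((SimpleGraph.fromRel_adj _ _ _).1 h').2 with h3 | h3
      · cases h3 with
        | vY1 x h => rw [hz2] at h; exact Bool.noConfusion h
      · cases h3

theorem DS_Z1 (v : W) (c : X2) (Y2 A2 : X2 → Bool) (Y1 A1 : X1 → Bool) (p : X1)
    (hcY : Y2 c = true) (hp : Y1 p = false) (hc : A2 c = true) (hpA : A1 p = true) :
    ((DS v c Y2 Y1 p).induce (US v A2 A1)).Connected := by
  rw [SimpleGraph.connected_iff_exists_forall_reachable]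
  have hvm : (Sum.inl v : W ⊕ X2 ⊕ X1) ∈ US v A2 A1 := Or.inl rfl
  have hcm : (Sum.inr (Sum.inl c) : W ⊕ X2 ⊕ X1) ∈ US v A2 A1 := Or.inr (Or.inl ⟨c, hc, rfl⟩)
  have hpm : (Sum.inr (Sum.inr p) : W ⊕ X2 ⊕ X1) ∈ US v A2 A1 := Or.inr (Or.inr ⟨p, hpA, rfl⟩)
  have hcp : ((DS v c Y2 Y1 p).induce (US v A2 A1)).Adj ⟨_, hcm⟩ ⟨_, hpm⟩ :=
    adj_of_rel DSRel.cp
  have hvp : ((DS v c Y2 Y1 p).induce (US v A2 A1)).Adj ⟨_, hvm⟩ ⟨_, hpm⟩ :=
    adj_of_rel (DSRel.vY1 p hp)
  have hcv : ((DS v c Y2 Y1 p).induce (US v A2 A1)).Reachable ⟨_, hcm⟩ ⟨_, hvm⟩ :=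
    hcp.reachable.trans hvp.reachable.symm
  refine ⟨⟨_, hcm⟩, ?_⟩
  rintro ⟨y, hy⟩
  rcases id hy with rfl | ⟨z, hz, rfl⟩ | ⟨z, hz, rfl⟩
  · exact hcv
  · by_cases hx : z = c
    · subst hx; exact SimpleGraph.Reachable.refl _
    · cases hyz : Y2 z with
      | false =>
        have h1 : ((DS v c Y2 Y1 p).induce (US v A2 A1)).Adj ⟨_, hvm⟩ ⟨_, hy⟩ :=
          adj_of_rel (DSRel.vY2 z hyz)
        exact hcv.trans h1.reachable
      | true =>
        have h1 : ((DS v c Y2 Y1 p).induce (US v A2 A1)).Adj ⟨_, hcm⟩ ⟨_, hy⟩ :=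
          adj_of_rel (DSRel.cY2 z hx hyz)
        exact h1.reachable
  · cases hyz : Y1 z with
    | false =>
      have h1 : ((DS v c Y2 Y1 p).induce (US v A2 A1)).Adj ⟨_, hvm⟩ ⟨_, hy⟩ :=
        adj_of_rel (DSRel.vY1 z hyz)
      exact hcv.trans h1.reachable
    | true =>
      have h1 : ((DS v c Y2 Y1 p).induce (US v A2 A1)).Adj ⟨_, hcm⟩ ⟨_, hy⟩ :=
        adj_of_rel (DSRel.cY1 z hyz)
      exact h1.reachable

theorem DS_Z2 (v v' : W) (hv : v' ≠ v) (c : X2) (Y2 A2 : X2 → Bool) (Y1 A1 : X1 → Bool) (p : X1)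
    (hc : A2 c = true) (h2 : A2 ≤ Y2) (h1 : A1 ≤ Y1) (hp : Y1 p = false) :
    ((DS v c Y2 Y1 p).induce (US v' A2 A1)).Connected := by
  rw [SimpleGraph.connected_iff_exists_forall_reachable]
  have hcm : (Sum.inr (Sum.inl c) : W ⊕ X2 ⊕ X1) ∈ US v' A2 A1 := Or.inr (Or.inl ⟨c, hc, rfl⟩)
  refine ⟨⟨_, hcm⟩, ?_⟩
  rintro ⟨y, hy⟩
  rcases id hy with rfl | ⟨z, hz, rfl⟩ | ⟨z, hz, rfl⟩
  · have h1 : ((DS v c Y2 Y1 p).induce (US v' A2 A1)).Adj ⟨_, hcm⟩ ⟨_, hy⟩ :=
      adj_of_rel (DSRel.cw v' hv)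
    exact h1.reachable
  · by_cases hx : z = c
    · subst hx; exact SimpleGraph.Reachable.refl _
    · have hz2 : Y2 z = true := by
        have := h2 z
        rw [hz] at this
        exact Bool.eq_true_of_true_le this
      have h1 : ((DS v c Y2 Y1 p).induce (US v' A2 A1)).Adj ⟨_, hcm⟩ ⟨_, hy⟩ :=
        adj_of_rel (DSRel.cY2 z hx hz2)
      exact h1.reachable
  · have hz2 : Y1 z = true := by
      have := h1 z
      rw [hz] at this
      exact Bool.eq_true_of_true_le this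
    have h1 : ((DS v c Y2 Y1 p).induce (US v' A2 A1)).Adj ⟨_, hcm⟩ ⟨_, hy⟩ :=
      adj_of_rel (DSRel.cY1 z hz2)
    exact h1.reachable

theorem DS_Z3 (v : W) (c : X2) (Y2 A2 : X2 → Bool) (Y1 A1 : X1 → Bool) (p : X1)
    (hcY : Y2 c = true) (hp : Y1 p = false)
    (h2 : ∀ x, A2 x = true → Y2 x = false) (h1 : ∀ x, A1 x = true → Y1 x = false) :
    ((DS v c Y2 Y1 p).induce (US v A2 A1)).Connected := by
  rw [SimpleGraph.connected_iff_exists_forall_reachable]
  have hvm : (Sum.inl v : W ⊕ X2 ⊕ X1) ∈ US v A2 A1 := Or.inl rfl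
  refine ⟨⟨_, hvm⟩, ?_⟩
  rintro ⟨y, hy⟩
  rcases id hy with rfl | ⟨z, hz, rfl⟩ | ⟨z, hz, rfl⟩
  · exact SimpleGraph.Reachable.refl _
  · have h3 : ((DS v c Y2 Y1 p).induce (US v A2 A1)).Adj ⟨_, hvm⟩ ⟨_, hy⟩ :=
      adj_of_rel (DSRel.vY2 z (h2 z hz))
    exact h3.reachable
  · have h3 : ((DS v c Y2 Y1 p).induce (US v A2 A1)).Adj ⟨_, hvm⟩ ⟨_, hy⟩ :=
      adj_of_rel (DSRel.vY1 z (h1 z hz))
    exact h3.reachable

end Pool.Agent.Helper20.SpTreeG1a
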