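import Pool.Agent.Helper9.STP.Defs

/-!
# From an extended formulation of a spanning tree polytope to a rectangle cover
-/

namespace Pool.Agent.Helper20.SpTreeX

open Pool.Agent.Helper9.SpTree
open Finset Filter Topology
open scoped Classical

/-- the edges of the induced graph, counted by a linear functional -/
lemma exists_ell {V : Type} [Finite V] (G : SimpleGraph V) (U : Set V) :
    ∃ ell : (G.edgeSet → ℝ) →ₗ[ℝ] ℝ, ∀ T : SimpleGraph V, T ≤ G →
      ell (incVec G T) = (Nat.card (T.induce U).edgeSet : ℝ) := by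
  have : Fintype G.edgeSet := Fintype.ofFinite _
  refine ⟨∑ e : G.edgeSet, (if ∀ v ∈ (e : Sym2 V), v ∈ U then (1 : ℝ) else 0) •
    (LinearMap.proj e : (G.edgeSet → ℝ) →ₗ[ℝ] ℝ), fun T hT => ?_⟩
  have h1 : (∑ e : G.edgeSet, (if ∀ v ∈ (e : Sym2 V), v ∈ U then (1 : ℝ) else 0) •
      (LinearMap.proj e : (G.edgeSet → ℝ) →ₗ[ℝ] ℝ)) (incVec G T) =
      ∑ e : G.edgeSet, if (∀ v ∈ (e : Sym2 V), v ∈ U) ∧ (e : Sym2 V) ∈ T.edgeSet
        then (1 : ℝ) else 0 := by
    rw [LinearMap.sum_apply]
    refine Finset.sum_congr rfl fun e _ => ?_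
    simp only [LinearMap.smul_apply, LinearMap.proj_apply, incVec, smul_eq_mul]
    split_ifs <;> simp_all
  rw [h1, Finset.sum_boole]
  congr 1
  rw [← Fintype.card_subtype, ← Nat.card_eq_fintype_card]
  symm
  have hmem : ∀ x : Sym2 U, x ∈ (T.induce U).edgeSet →
      Sym2.map Subtype.val x ∈ T.edgeSet ∧ ∀ v ∈ Sym2.map Subtype.val x, v ∈ U := by
    intro x
    induction x using Sym2.ind with
    | _ a b =>
      intro hx
      refine ⟨by simpa using hx, ?_⟩
      intro v hv
      simp only [Sym2.map_mk, Sym2.mem_iff] at hv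
      rcases hv with rfl | rfl
      · exact a.2
      · exact b.2
  refine Nat.card_congr (Equiv.ofBijective
    (fun x => ⟨⟨Sym2.map Subtype.val x.1, SimpleGraph.edgeSet_mono hT (hmem x.1 x.2).1⟩,
      (hmem x.1 x.2).2, (hmem x.1 x.2).1⟩) ⟨?_, ?_⟩)
  · intro x y hxy
    simp only [Subtype.mk.injEq] at hxy
    exact Subtype.ext (Sym2.map.injective Subtype.val_injective hxy)
  · rintro ⟨⟨e, he⟩, h2, h3⟩
    induction e using Sym2.ind with
    | _ a b =>
      have ha : a ∈ U := h2 a (by simp)
      have hb : b ∈ U := h2 b (by simp)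
      refine ⟨⟨s(⟨a, ha⟩, ⟨b, hb⟩), by simpa using h3⟩, ?_⟩
      simp

/-- an acyclic graph on a nonempty finite set has at most `n - 1` edges, with equality iff it is
connected -/
lemma acyclic_card {W : Type} [Finite W] [Nonempty W] (H : SimpleGraph W) (hH : H.IsAcyclic) :
    Nat.card H.edgeSet + 1 ≤ Nat.card W ∧
      (Nat.card H.edgeSet + 1 = Nat.card W ↔ H.Connected) := by
  obtain ⟨F, hHF, -, hF⟩ := SimpleGraph.Connected.exists_isTree_le_of_le_of_isAcyclic
    (G := (⊤ : SimpleGraph W)) SimpleGraph.connected_top le_top hH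
  have hFc := (SimpleGraph.isTree_iff_connected_and_card.1 hF).2
  have hsub : H.edgeSet ⊆ F.edgeSet := SimpleGraph.edgeSet_mono hHF
  have hle : Nat.card H.edgeSet ≤ Nat.card F.edgeSet :=
    Nat.card_mono (Set.toFinite _) hsub
  refine ⟨by omega, ?_, ?_⟩
  · intro h
    have heq : H.edgeSet = F.edgeSet := by
      refine Set.eq_of_subset_of_ncard_le hsub ?_ (Set.toFinite _)
      rw [← Nat.card_coe_set_eq, ← Nat.card_coe_set_eq]
      omega
    have : H = F := SimpleGraph.edgeSet_injective heq
    rw [this]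
    exact hF.1
  · intro h
    exact (SimpleGraph.isTree_iff_connected_and_card.1 ⟨h, hH⟩).2

theorem rect_of_ext {V : Type} [Finite V] (G : SimpleGraph V) {r : ℕ} (h : HasExt (STP G) r)
    {R C : Type} (U : R → Set V) (T : C → SimpleGraph V)
    (hT : ∀ c, T c ≤ G ∧ (T c).IsTree)
    (hU : ∀ i, ∃ T0 : SimpleGraph V, T0 ≤ G ∧ T0.IsTree ∧ (T0.induce (U i)).Connected) :
    ∃ (rows : Fin r → Set R) (cols : Fin r → Set C),
      (∀ k i c, i ∈ rows k → c ∈ cols k → ¬ ((T c).induce (U i)).Connected) ∧
      (∀ i c, ¬ ((T c).induce (U i)).Connected → ∃ k, i ∈ rows k ∧ c ∈ cols k) := by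
  obtain ⟨d, s, a, b, c, e, f, -, hf⟩ := h
  -- the functionals
  choose ell hell using fun i => exists_ell G (U i)
  let A : Fin r → (Fin d → ℝ) →ₗ[ℝ] ℝ := fun k => ∑ j, a k j • LinearMap.proj j
  have hA : ∀ k q, A k q = ∑ j, a k j * q j := by
    intro k q
    simp [A, LinearMap.sum_apply]
  let B : Fin s → (Fin d → ℝ) →ₗ[ℝ] ℝ := fun k => ∑ j, c k j • LinearMap.proj j
  have hB : ∀ k q, B k q = ∑ j, c k j * q j := by
    intro k q
    simp [B, LinearMap.sum_apply]
  have hQ : ∀ q, q ∈ polyhedron a b c e ↔ (∀ k, A k q ≤ b k) ∧ ∀ j, B j q = e j := by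
    intro q
    simp only [hA, hB]
    exact Iff.rfl
  have hne : ∀ i, Nonempty (U i) := fun i => by
    obtain ⟨T0, -, -, h3⟩ := hU i
    exact h3.nonempty
  let m : R → ℝ := fun i => (Nat.card (U i) : ℝ) - 1
  -- the inequality on trees
  have htree : ∀ i (S : SimpleGraph V), S ≤ G → S.IsTree → ell i (incVec G S) ≤ m i ∧
      (ell i (incVec G S) = m i ↔ (S.induce (U i)).Connected) := by
    intro i S hS hS2
    have := hne i
    obtain ⟨h1, h2⟩ := acyclic_card (S.induce (U i)) (hS2.2.induce _)
    rw [hell i S hS]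
    constructor
    · have : ((Nat.card (S.induce (U i)).edgeSet + 1 : ℕ) : ℝ) ≤ Nat.card (U i) := by
        exact_mod_cast h1
      push_cast at this
      simp only [m]
      linarith
    · rw [← h2]
      simp only [m]
      constructor
      · intro h
        have : ((Nat.card (S.induce (U i)).edgeSet + 1 : ℕ) : ℝ) = Nat.card (U i) := by
          push_cast; linarith
        exact_mod_cast this
      · intro h
        have : ((Nat.card (S.induce (U i)).edgeSet + 1 : ℕ) : ℝ) = Nat.card (U i) := by
          exact_mod_cast h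
        push_cast at this
        linarith
  have hSTP : ∀ i x, x ∈ STP G → ell i x ≤ m i := by
    intro i x hx
    have hsub : STP G ⊆ {x | ell i x ≤ m i} := by
      refine convexHull_min ?_ (convex_halfSpace_le (ell i).isLinear (m i))
      rintro x ⟨S, hS, hS2, rfl⟩
      exact (htree i S hS hS2).1
    exact hsub hx
  have hinSTP : ∀ S : SimpleGraph V, S ≤ G → S.IsTree → incVec G S ∈ STP G :=
    fun S hS hS2 => subset_convexHull ℝ _ ⟨S, hS, hS2, rfl⟩
  -- preimages of the columns
  have hcol : ∀ t, ∃ q ∈ polyhedron a b c e, f q = incVec G (T t) := by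
    intro t
    have := hinSTP (T t) (hT t).1 (hT t).2
    rw [← hf] at this
    exact this
  choose q hqQ hqf using hcol
  have hrow : ∀ i, ∃ q ∈ polyhedron a b c e, ell i (f q) = m i := by
    intro i
    obtain ⟨T0, h1, h2, h3⟩ := hU i
    have := hinSTP T0 h1 h2
    rw [← hf] at this
    obtain ⟨q0, hq0, hq1⟩ := this
    exact ⟨q0, hq0, by rw [hq1]; exact (htree i T0 h1 h2).2.2 h3⟩
  refine ⟨fun k => {i | ∀ p ∈ polyhedron a b c e, ell i (f p) = m i → A k p = b k},
    fun k => {t | A k (q t) < b k}, ?_, ?_⟩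
  · intro k i t hi ht hcon
    have h1 : ell i (f (q t)) = m i := by
      rw [hqf]
      exact (htree i (T t) (hT t).1 (hT t).2).2.2 hcon
    have h2 : A k (q t) = b k := hi (q t) (hqQ t) h1
    have h3 : A k (q t) < b k := ht
    linarith
  · intro i t hcon
    by_contra hno
    push Not at hno
    have hlt : ell i (f (q t)) < m i := by
      rw [hqf]
      refine lt_of_le_of_ne (htree i (T t) (hT t).1 (hT t).2).1 ?_
      intro h
      exact hcon ((htree i (T t) (hT t).1 (hT t).2).2.1 h)
    obtain ⟨q0, hq0, hq0m⟩ := hrow i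
    have hpk : ∀ k, ∃ p ∈ polyhedron a b c e, ell i (f p) = m i ∧
        (A k (q t) < b k → A k p < b k) := by
      intro k
      by_cases hk : A k (q t) < b k
      · have hki : i ∉ {i | ∀ p ∈ polyhedron a b c e, ell i (f p) = m i → A k p = b k} :=
          fun h => hno k h hk
        simp only [Set.mem_ofPred_eq] at hki
        push Not at hki
        obtain ⟨p, hp, hp1, hp2⟩ := hki
        exact ⟨p, hp, hp1, fun _ => lt_of_le_of_ne (((hQ p).1 hp).1 k) hp2⟩
      · exact ⟨q0, hq0, hq0m, fun h => absurd h hk⟩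
    choose p hpQ hpm hpk using hpk
    -- the average of all the points
    let z : Option (Fin r) → (Fin d → ℝ) := fun o => o.elim q0 p
    have hzQ : ∀ o, z o ∈ polyhedron a b c e := by
      intro o; cases o with
      | none => exact hq0
      | some k => exact hpQ k
    have hzm : ∀ o, ell i (f (z o)) = m i := by
      intro o; cases o with
      | none => exact hq0m
      | some k => exact hpm k
    have hconv : Convex ℝ {p | p ∈ polyhedron a b c e ∧ ell i (f p) = m i} := by
      intro x hx y hy α β hα hβ hαβ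
      refine ⟨(hQ _).2 ⟨fun k => ?_, fun j => ?_⟩, ?_⟩
      · rw [map_add, map_smul, map_smul, smul_eq_mul, smul_eq_mul]
        have h1 := ((hQ x).1 hx.1).1 k
        have h2 := ((hQ y).1 hy.1).1 k
        calc α * A k x + β * A k y ≤ α * b k + β * b k := by gcongr
          _ = b k := by rw [← add_mul, hαβ, one_mul]
      · rw [map_add, map_smul, map_smul, smul_eq_mul, smul_eq_mul,
          ((hQ x).1 hx.1).2 j, ((hQ y).1 hy.1).2 j, ← add_mul, hαβ, one_mul]
      · have hfc : f (α • x + β • y) = α • f x + β • f y := by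
          have h1 : α • x + β • y = AffineMap.lineMap x y β := by
            rw [AffineMap.lineMap_apply_module]
            rw [← hαβ]; simp
          rw [h1, AffineMap.apply_lineMap, AffineMap.lineMap_apply_module]
          rw [← hαβ]; simp
        rw [hfc, map_add, map_smul, map_smul, hx.2, hy.2, smul_eq_mul, smul_eq_mul,
          ← add_mul, hαβ, one_mul]
    let w : ℝ := 1 / (Fintype.card (Option (Fin r)) : ℝ)
    have hcard : (0 : ℝ) < Fintype.card (Option (Fin r)) := by
      exact_mod_cast Fintype.card_pos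
    have hw : 0 < w := by positivity
    let qb : Fin d → ℝ := ∑ o : Option (Fin r), w • z o
    have hqb : qb ∈ {p | p ∈ polyhedron a b c e ∧ ell i (f p) = m i} := by
      refine hconv.sum_mem (fun _ _ => hw.le) ?_ (fun o _ => ⟨hzQ o, hzm o⟩)
      rw [Finset.sum_const, Finset.card_univ, nsmul_eq_mul]
      simp only [w]
      field_simp
    have hqblt : ∀ k, A k (q t) < b k → A k qb < b k := by
      intro k hk
      have h1 : A k qb = ∑ o : Option (Fin r), w * A k (z o) := by
        simp [qb, map_sum]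
      have h2 : (b k : ℝ) = ∑ o : Option (Fin r), w * b k := by
        rw [Finset.sum_const, Finset.card_univ, nsmul_eq_mul]
        simp only [w]
        field_simp
      rw [h1]
      conv_rhs => rw [h2]
      refine Finset.sum_lt_sum (fun o _ => ?_) ⟨some k, Finset.mem_univ _, ?_⟩
      · exact mul_le_mul_of_nonneg_left (((hQ _).1 (hzQ o)).1 k) hw.le
      · exact mul_lt_mul_of_pos_left (hpk k hk) hw
    -- moving beyond
    have hev : ∀ k, ∀ᶠ δ in 𝓝[>] (0 : ℝ), A k qb + δ * (A k qb - A k (q t)) ≤ b k := by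
      intro k
      by_cases hk : A k (q t) < b k
      · have hcont : Tendsto (fun δ : ℝ => A k qb + δ * (A k qb - A k (q t))) (𝓝[>] 0)
            (𝓝 (A k qb + 0 * (A k qb - A k (q t)))) := by
          refine Tendsto.mono_left ?_ nhdsWithin_le_nhds
          exact (Continuous.tendsto (by fun_prop) 0)
        rw [zero_mul, add_zero] at hcont
        filter_upwards [hcont.eventually (gt_mem_nhds (hqblt k hk))] with δ hδ
        exact hδ.le
      · have h1 : A k (q t) = b k := le_antisymm (((hQ _).1 (hqQ t)).1 k) (not_lt.1 hk)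
        have h2 : A k qb ≤ b k := ((hQ _).1 hqb.1).1 k
        filter_upwards [self_mem_nhdsWithin] with δ hδ
        have : 0 < δ := hδ
        nlinarith
    obtain ⟨δ, hδ, hδ0⟩ := ((eventually_all.2 hev).and self_mem_nhdsWithin).exists
    have hδ0 : 0 < δ := hδ0
    have hmem : AffineMap.lineMap (q t) qb (1 + δ) ∈ polyhedron a b c e := by
      rw [AffineMap.lineMap_apply_module]
      refine (hQ _).2 ⟨fun k => ?_, fun j => ?_⟩
      · rw [map_add, map_smul, map_smul, smul_eq_mul, smul_eq_mul]
        have := hδ k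
        linarith
      · rw [map_add, map_smul, map_smul, smul_eq_mul, smul_eq_mul,
          ((hQ _).1 (hqQ t)).2 j, ((hQ _).1 hqb.1).2 j]
        ring
    have hin : f (AffineMap.lineMap (q t) qb (1 + δ)) ∈ STP G := by
      rw [← hf]
      exact ⟨_, hmem, rfl⟩
    have hle := hSTP i _ hin
    rw [AffineMap.apply_lineMap, AffineMap.lineMap_apply_module, map_add, map_smul, map_smul,
      hqb.2, smul_eq_mul, smul_eq_mul] at hle
    nlinarith

end Pool.Agent.Helper20.SpTreeX
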